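import Pool.Agent.W2helper5.KA.Stm2

/-!
# Project KA2 (helper5, MP_0d5e35_al), piece CYC
-/

set_option autoImplicit false

namespace Pool.Agent.W2helper65.KA2

open Pool.Agent.W2helper5.KA2

variable {G M : Type} [Group G] [CommGroup M]

/-- `E i j = ∏_{t<i} ω g (g^t) (g^j)` -/
def E (ω : G → G → G → M) (g : G) (i j : ℕ) : M :=
  ∏ t ∈ Finset.range i, ω g (g ^ t) (g ^ j)

theorem E_succ (ω : G → G → G → M) (g : G) (i j : ℕ) :
    E ω g (i + 1) j = E ω g i j * ω g (g ^ i) (g ^ j) := Finset.prod_range_succ _ _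

theorem tele (ω : G → G → G → M) (h : IsCoc ω) (g : G) (j l : ℕ) : ∀ i : ℕ,
    ω (g ^ i) (g ^ j) (g ^ l) * (E ω g j l * E ω g i (j + l)) = E ω g (i + j) l * E ω g i j := by
  intro i
  induction i with
  | zero => simp [E, h.one₀]
  | succ i ih =>
    have hc := h.coc g (g ^ i) (g ^ j) (g ^ l)
    rw [← pow_add, ← pow_add, ← pow_succ'] at hc
    rw [show i + 1 + j = (i + j) + 1 by ring, E_succ, E_succ, E_succ]
    calc ω (g ^ (i + 1)) (g ^ j) (g ^ l) *
          (E ω g j l * (E ω g i (j + l) * ω g (g ^ i) (g ^ (j + l))))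
        = (ω (g ^ (i + 1)) (g ^ j) (g ^ l) * ω g (g ^ i) (g ^ (j + l))) *
          (E ω g j l * E ω g i (j + l)) := by ac_rfl
      _ = (ω (g ^ i) (g ^ j) (g ^ l) * ω g (g ^ (i + j)) (g ^ l) * ω g (g ^ i) (g ^ j)) *
          (E ω g j l * E ω g i (j + l)) := by rw [hc]
      _ = (ω (g ^ i) (g ^ j) (g ^ l) * (E ω g j l * E ω g i (j + l))) *
          (ω g (g ^ (i + j)) (g ^ l) * ω g (g ^ i) (g ^ j)) := by ac_rfl
      _ = (E ω g (i + j) l * E ω g i j) * (ω g (g ^ (i + j)) (g ^ l) * ω g (g ^ i) (g ^ j)) := by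
          rw [ih]
      _ = _ := by ac_rfl

theorem E_zero_right (ω : G → G → G → M) (h : IsCoc ω) (g : G) (i j : ℕ) (hj : g ^ j = 1) :
    E ω g i j = 1 := by
  unfold E
  exact Finset.prod_eq_one fun t _ => by rw [hj, h.one₂]

theorem E_period (ω : G → G → G → M) (g : G) (i j : ℕ) :
    E ω g (orderOf g + i) j = E ω g (orderOf g) j * E ω g i j := by
  unfold E
  rw [Finset.prod_range_add]
  congr 1
  refine Finset.prod_congr rfl fun t _ => ?_
  rw [pow_add, pow_orderOf_eq_one, one_mul]

theorem E_add (ω : G → G → G → M) (h : IsCoc ω) (g : G) (j l : ℕ) :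
    E ω g (orderOf g) (j + l) = E ω g (orderOf g) j * E ω g (orderOf g) l := by
  have h1 := tele ω h g j l (orderOf g)
  rw [pow_orderOf_eq_one, h.one₀, one_mul, E_period] at h1
  refine mul_left_cancel (a := E ω g j l) ?_
  rw [h1]
  ac_rfl

theorem E_pow (ω : G → G → G → M) (h : IsCoc ω) (g : G) (j : ℕ) :
    E ω g (orderOf g) j = z ω g ^ j := by
  induction j with
  | zero => rw [pow_zero]; exact E_zero_right ω h g _ 0 (pow_zero g)
  | succ j ih =>
    rw [E_add ω h, ih, pow_succ]
    congr 1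
    simp [E, z]

theorem CYC : P_CYC := by
  intro G M _ _ _ ω h g
  have hN : 0 < orderOf g := orderOf_pos g
  refine ⟨?_, ?_⟩
  · rw [← E_pow ω h g]
    exact E_zero_right ω h g _ _ (pow_orderOf_eq_one g)
  · intro e he
    have he0 : e ≠ 0 := by
      rintro rfl
      rw [zero_dvd_iff] at he
      omega
    have key : ∀ s : ℕ, (∏ t ∈ Finset.range s, ω (g ^ e) (g ^ (e * t)) (g ^ e)) *
        E ω g e (e * s) = E ω g (e * s) e := by
      intro s
      induction s with
      | zero =>
        rw [mul_zero, E_zero_right ω h g e 0 (pow_zero g)]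
        simp [E]
      | succ s ih =>
        rw [Finset.prod_range_succ]
        have h1 := tele ω h g (e * s) e e
        refine mul_right_cancel (b := E ω g (e * s) e) ?_
        rw [Nat.mul_succ]
        calc (∏ t ∈ Finset.range s, ω (g ^ e) (g ^ (e * t)) (g ^ e)) *
              ω (g ^ e) (g ^ (e * s)) (g ^ e) * E ω g e (e * s + e) * E ω g (e * s) e
            = (∏ t ∈ Finset.range s, ω (g ^ e) (g ^ (e * t)) (g ^ e)) *
              (ω (g ^ e) (g ^ (e * s)) (g ^ e) * (E ω g (e * s) e * E ω g e (e * s + e))) := by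
              ac_rfl
          _ = (∏ t ∈ Finset.range s, ω (g ^ e) (g ^ (e * t)) (g ^ e)) *
              (E ω g (e + e * s) e * E ω g e (e * s)) := by rw [h1]
          _ = ((∏ t ∈ Finset.range s, ω (g ^ e) (g ^ (e * t)) (g ^ e)) * E ω g e (e * s)) *
              E ω g (e + e * s) e := by ac_rfl
          _ = E ω g (e * s) e * E ω g (e + e * s) e := by rw [ih]
          _ = _ := by rw [add_comm e (e * s), mul_comm]
    have hord : orderOf (g ^ e) = orderOf g / e := orderOf_pow_of_dvd he0 he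
    have h2 := key (orderOf g / e)
    rw [Nat.mul_div_cancel' he, E_zero_right ω h g e _ (pow_orderOf_eq_one g), mul_one,
      E_pow ω h g] at h2
    rw [← h2]
    unfold z
    rw [hord]
    refine Finset.prod_congr rfl fun t _ => ?_
    rw [pow_mul]

end Pool.Agent.W2helper65.KA2
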